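import Pool.Agent.helper55.FPZ.Spec

set_option autoImplicit false

namespace Pool.Agent.FPZ

open Matrix Polynomial Pool.Agent.PL Pool.Agent.X4

private lemma KIL_cst_mul (F : Type) [Field F] [CharZero F] {N : ℕ} (A B : Matrix (Fin N) (Fin N) ℚ) :
    cst F (A * B) = cst F A * cst F B := by
  ext i j
  simp only [cst, Matrix.map_apply, Matrix.mul_apply]
  push_cast
  rfl

theorem KIL (hCZ : CZ_stmt) (hCH : CH_stmt) (hDD : DD_stmt) (hGZ : GZ_stmt) (hDC : DC_stmt) (hTP : TP_stmt)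
    (hDB : DB_stmt) (hDL : DL_stmt) : KIL_stmt := by
  intro F _ _ N E D hc G hG hdiag m t ht B hB C hC hI
  obtain ⟨gz1, gz2, gz3, gz4⟩ := hGZ F N E D hc
  have hdet : IsUnit G.det := (Matrix.isUnit_iff_isUnit_det G).mp hG
  have hGGi : G * G⁻¹ = 1 := Matrix.mul_nonsing_inv G hdet
  have hGiG : G⁻¹ * G = 1 := Matrix.nonsing_inv_mul G hdet
  -- commutation with the centre
  have hBc : ∀ z ∈ Zm D, B * cst F z = cst F z * B := by
    intro z hz
    refine Submodule.span_induction (p := fun B _ => B * cst F z = cst F z * B) ?_ ?_ ?_ ?_ hB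
    · rintro _ ⟨Y, hY, rfl⟩
      rw [← KIL_cst_mul, ← KIL_cst_mul, gz1 Y hY z hz.1]
    · simp
    · intro x y _ _ hx hy
      rw [add_mul, mul_add, hx, hy]
    · intro c x _ hx
      rw [Matrix.smul_mul, Matrix.mul_smul, hx]
  have hCc : ∀ z ∈ Zm D, C * cst F z = cst F z * C := by
    intro z hz
    refine Submodule.span_induction (p := fun C _ => C * cst F z = cst F z * C) ?_ ?_ ?_ ?_ hC
    · rintro _ ⟨Y, hY, rfl⟩
      rw [← KIL_cst_mul, ← KIL_cst_mul, gz3 Y hY z hz]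
    · simp
    · intro x y _ _ hx hy
      rw [add_mul, mul_add, hx, hy]
    · intro c x _ hx
      rw [Matrix.smul_mul, Matrix.mul_smul, hx]
  have hconj : ∀ X : Matrix (Fin N) (Fin N) F, (∀ z ∈ Zm D, X * cst F z = cst F z * X) →
      G⁻¹ * X * G ∈ CD (dg D G) := by
    intro X hX d hd
    obtain ⟨z, hz, hzd⟩ := hd
    have e1 : diagonal d = G⁻¹ * cst F z * G := by
      rw [Matrix.mul_assoc, hzd, ← Matrix.mul_assoc, hGiG, Matrix.one_mul]
    rw [e1]
    calc G⁻¹ * X * G * (G⁻¹ * cst F z * G) = G⁻¹ * X * (G * G⁻¹) * cst F z * G := by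
          simp only [Matrix.mul_assoc]
      _ = G⁻¹ * (X * cst F z) * G := by rw [hGGi]; simp only [Matrix.mul_assoc, Matrix.mul_one, Matrix.one_mul]
      _ = G⁻¹ * (cst F z * X) * G := by rw [hX z hz]
      _ = G⁻¹ * cst F z * (G * G⁻¹) * X * G := by
          rw [hGGi]; simp only [Matrix.mul_assoc, Matrix.mul_one, Matrix.one_mul]
      _ = G⁻¹ * cst F z * G * (G⁻¹ * X * G) := by simp only [Matrix.mul_assoc]
  have hA : G⁻¹ * (B + C) * G ∈ CD (dg D G) := by
    apply hconj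
    intro z hz
    rw [add_mul, mul_add, hBc z hz, hCc z hz]
  -- diagonal form of C
  have hCd : ∃ d : Fin N → F, (∀ i j, Bl (dg D G) i j → d i = d j) ∧ C * G = G * diagonal d := by
    refine Submodule.span_induction (p := fun C _ => ∃ d : Fin N → F, (∀ i j, Bl (dg D G) i j → d i = d j) ∧
      C * G = G * diagonal d) ?_ ?_ ?_ ?_ hC
    · rintro _ ⟨z, hz, rfl⟩
      obtain ⟨d, hd⟩ := hdiag z hz
      exact ⟨d, fun i j hij => hij d ⟨z, hz, hd⟩, hd⟩
    · refine ⟨fun _ => 0, fun _ _ _ => rfl, ?_⟩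
      rw [Matrix.zero_mul]
      have : diagonal (fun _ : Fin N => (0 : F)) = 0 := Matrix.diagonal_zero
      rw [this, Matrix.mul_zero]
    · rintro x y _ _ ⟨d1, h1, h1'⟩ ⟨d2, h2, h2'⟩
      refine ⟨fun i => d1 i + d2 i, fun i j hij => ?_, ?_⟩
      · simp only [h1 i j hij, h2 i j hij]
      · rw [add_mul, h1', h2', ← Matrix.mul_add, Matrix.diagonal_add]
    · rintro c x _ ⟨d1, h1, h1'⟩
      refine ⟨c • d1, fun i j hij => ?_, ?_⟩
      · simp only [Pi.smul_apply, h1 i j hij]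
      · rw [Matrix.smul_mul, h1', Matrix.diagonal_smul, Matrix.mul_smul]
  obtain ⟨d, hdb, hd⟩ := hCd
  have hCG : G * diagonal d * G⁻¹ = C := by
    rw [← hd, Matrix.mul_assoc, hGGi, Matrix.mul_one]
  have hCG' : G⁻¹ * C * G = diagonal d := by
    rw [Matrix.mul_assoc, hd, ← Matrix.mul_assoc, hGiG, Matrix.one_mul]
  -- the sums
  have hsum : ∀ I : Fin m → Fin N, (tp G⁻¹ m *ᵥ up F t) I ≠ 0 → ∑ k, d (I k) = 0 := by
    intro I hI0
    obtain ⟨M, w, hw, hkill⟩ := hI I hI0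
    obtain ⟨ch1, ch2, ch3, ch4⟩ := hCH F N (dg D G) m I
    have hw0 : tp G M *ᵥ w ≠ 0 := by
      intro h0
      apply hw.ne
      have h1 : tp G⁻¹ M *ᵥ (tp G M *ᵥ w) = w := by
        rw [Matrix.mulVec_mulVec, ← (hTP N M F G⁻¹ G).1, hGiG, (hTP N M F G⁻¹ G).2, Matrix.one_mulVec]
      rw [h0, Matrix.mulVec_zero] at h1
      exact h1.symm
    have hchA : ch (dg D G) m I (G⁻¹ * (B + C) * G) = 0 := by
      have h1 := hDC N M F G G⁻¹ (G⁻¹ * (B + C) * G) hGGi hGiG w
      have h2 : G * (G⁻¹ * (B + C) * G) * G⁻¹ = B + C := by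
        calc G * (G⁻¹ * (B + C) * G) * G⁻¹ = (G * G⁻¹) * (B + C) * (G * G⁻¹) := by
              simp only [Matrix.mul_assoc]
          _ = B + C := by rw [hGGi, Matrix.one_mul, Matrix.mul_one]
      rw [h2, hkill, hw.lie _ hA, Matrix.mulVec_smul] at h1
      rcases smul_eq_zero.mp h1 with h3 | h3
      · exact h3
      · exact absurd h3 hw0
    have hchB : ch (dg D G) m I (G⁻¹ * B * G) = 0 := by
      refine Submodule.span_induction (p := fun B _ => ch (dg D G) m I (G⁻¹ * B * G) = 0) ?_ ?_ ?_ ?_ hB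
      · rintro _ ⟨Y, hY, rfl⟩
        exact hCZ F N E D hc G hG hdiag m t ht I hI0 Y hY
      · have h1 := ch4 0 (0 : Matrix (Fin N) (Fin N) F)
        rw [zero_smul, zero_mul] at h1
        rw [Matrix.mul_zero, Matrix.zero_mul]
        exact h1
      · intro x y _ _ hx hy
        rw [Matrix.mul_add, Matrix.add_mul, ch3, hx, hy, add_zero]
      · intro c x _ hx
        rw [Matrix.mul_smul, Matrix.smul_mul, ch4, hx, mul_zero]
    have hchC : ch (dg D G) m I (diagonal d) = 0 := by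
      rw [← hCG']
      rw [Matrix.mul_add, Matrix.add_mul, ch3, hchB, zero_add] at hchA
      exact hchA
    rw [ch2 d hdb] at hchC
    rcases mul_eq_zero.mp hchC with h1 | h1
    · exact absurd h1 (Nat.cast_ne_zero.mpr (Nat.factorial_ne_zero N))
    · exact h1
  have hCt : der C m (up F t) = 0 := by
    have h1 := hDC N m F G G⁻¹ (diagonal d) hGGi hGiG (tp G⁻¹ m *ᵥ up F t)
    have h2 : der (diagonal d) m (tp G⁻¹ m *ᵥ up F t) = 0 := by
      rw [hDD]
      funext I
      by_cases h0 : (tp G⁻¹ m *ᵥ up F t) I = 0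
      · rw [h0, mul_zero]; rfl
      · rw [hsum I h0, zero_mul]; rfl
    have h3 : tp G m *ᵥ (tp G⁻¹ m *ᵥ up F t) = up F t := by
      rw [Matrix.mulVec_mulVec, ← (hTP N m F G G⁻¹).1, hGGi, (hTP N m F G G⁻¹).2, Matrix.one_mulVec]
    rw [h2, Matrix.mulVec_zero, hCG, h3] at h1
    exact h1.symm
  have hBt : der B m (up F t) = 0 := by
    refine Submodule.span_induction (p := fun B _ => der B m (up F t) = 0) ?_ ?_ ?_ ?_ hB
    · rintro _ ⟨Y, hY, rfl⟩
      rw [← hDB N m F Y t, hY m t ht]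
      funext I
      simp [up]
    · have h1 := (hDL N m F 0 0 (up F t) (up F t) 0).2.1
      rw [zero_smul, zero_smul] at h1
      exact h1
    · intro x y _ _ hx hy
      rw [(hDL N m F x y (up F t) (up F t) 0).1, hx, hy, add_zero]
    · intro c x _ hx
      rw [(hDL N m F x x (up F t) (up F t) c).2.1, hx, smul_zero]
  rw [(hDL N m F B C (up F t) (up F t) 0).1, hBt, hCt, add_zero]

end Pool.Agent.FPZ
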